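import Pool.Agent.N401.RS.Univ

/-!
# MP_850839: partitions of families of tubes into subfamilies without loss

`n ≥ 3`. We consider ALL families of `N` `δ`-tubes in `ℝ^n` with `δ`-separated orientations and
arbitrary positions. The inequality of the problem for a subfamily `J`, in the `q`-th power, is

  `‖∑_{i ∈ J} 1_{T_i}‖_q ^ q ≤ C δ ^ (n - 1) (#J) ^ (q - 1 / (n - 1))`.

We prove:

* **every family can be partitioned into at most `c N ^ ((n - 2) / (2 (n - 1)))` subfamilies, with at
  most `N ^ (n / (2 (n - 1)))` tubes each, which all satisfy the inequality without any loss, in the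
  full range `q > n / (n - 1)`** (one partition for all `q`, with constants depending on `n` and `q`
  only). For `n = 3` there are `c N ^ (1 / 4)` subfamilies of at most `N ^ (3 / 4)` tubes, so at most
  `c' δ ^ (-1 / 2)` subfamilies in all cases;
* for every `q` in `[n / (n - 1), 2]` and every `θ` in `[0, 1]` the following are EQUIVALENT:
  `LossBound`: the inequality for all families, with the loss `N ^ ((1 - θ) / (n - 1))` in the
  `q`-th power; `PartitionBound`: every family can be partitioned into `C N ^ (1 - θ)` subfamilies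
  of at most `N ^ θ` tubes which satisfy the inequality without loss; `AverageBound`: for all
  `K ≤ N ^ θ` the inequality holds without loss on average over all subfamilies of `K` tubes. So the
  inequality of the problem with losses `N ^ ε`, for all `ε > 0`, is equivalent to the existence of
  partitions into `C N ^ ε` subfamilies of at most `N ^ (1 - ε)` tubes without any loss, for all
  `ε > 0`;
* these statements hold for `n / (n - 1) ≤ q ≤ 2` (endpoint included) and all `θ ≤ 1` with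
  `θ < (q - 1) n / 2`.

The proof: the number of the chosen tubes through a point, for a random set of `K` tubes, has the
moments of a sampling without replacement, `E X ^ q ≤ E X + (E X) ^ q` for `1 ≤ q ≤ 2` (Hölder's
inequality between the first two moments), so the average is at most
`(K / N) ‖∑ 1_T‖_1 + (K / N) ^ q ‖∑ 1_T‖_q ^ q`; the last norm is estimated by interpolation between
`L ^ 1` and the inequality without loss for exponents above `(n + 2) / n` (Wolff's hairbrush
argument; helper254 in the library of the starting files). The partitions are chosen greedily. The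
converse is convexity.
-/

set_option autoImplicit false

open MeasureTheory Finset
open scoped ENNReal

namespace Pool.Agent.Results.MP_850839_an.PartitionsWithoutLoss

/-- `ℝ^n`. -/
abbrev E (n : ℕ) := EuclideanSpace ℝ (Fin n)

/-- The closed `δ`-tube (cylinder of length `1` and radius `δ`) with centre `a` and direction `e`. -/
def tube {n : ℕ} (δ : ℝ) (a e : E n) : Set (E n) :=
  {y | |inner ℝ (y - a) e| ≤ 1 / 2 ∧ ‖(y - a) - (inner ℝ (y - a) e) • e‖ ≤ δ}

/-- The `e i` are unit vectors that are `δ`-separated. -/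
def Separated {n N : ℕ} (δ : ℝ) (e : Fin N → E n) : Prop :=
  (∀ i, ‖e i‖ = 1) ∧ ∀ i j, i ≠ j → δ ≤ ‖e i - e j‖

/-- The number of the tubes with centres `a i` and directions `e i`, `i ∈ J`, that contain `y`. -/
noncomputable def tubeSum {n N : ℕ} (δ : ℝ) (a e : Fin N → E n) (J : Finset (Fin N)) (y : E n) :
    ℝ≥0∞ :=
  ∑ i ∈ J, (tube δ (a i) (e i)).indicator 1 y

/-- `‖∑_{i ∈ J} 1_{T_i}‖_q ^ q`. -/
noncomputable def normPow {n N : ℕ} (q δ : ℝ) (a e : Fin N → E n) (J : Finset (Fin N)) : ℝ≥0∞ :=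
  ∫⁻ y, tubeSum δ a e J y ^ q

/-- The average of `‖∑_{i ∈ J} 1_{T_i}‖_q ^ q` over all sets `J` of `K` of the `N` indices. -/
noncomputable def average {n N : ℕ} (q δ : ℝ) (a e : Fin N → E n) (K : ℕ) : ℝ≥0∞ :=
  (∑ J ∈ (univ : Finset (Fin N)).powersetCard K, normPow q δ a e J) / (N.choose K : ℝ≥0∞)

/-- The inequality of the problem, without loss, on average over the `K`-element subfamilies of every
family of `N` tubes, for all `K ≤ N ^ θ`. -/
def AverageBound (n : ℕ) (q θ : ℝ) : Prop :=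
  ∃ C : ℝ, 0 < C ∧ ∀ δ : ℝ, 0 < δ → δ < 1 → ∀ (N : ℕ) (a e : Fin N → E n), Separated δ e →
    ∀ K : ℕ, 1 ≤ K → K ≤ N → (K : ℝ) ≤ (N : ℝ) ^ θ →
      average q δ a e K ≤
        ENNReal.ofReal (C * δ ^ (n - 1) * (K : ℝ) ^ (q - 1 / ((n : ℝ) - 1)))

/-- Every family of `N` tubes has a partition into at most `C N ^ (1 - θ)` subfamilies with at most
`N ^ θ` members, which satisfy the inequality of the problem without loss. -/
def PartitionBound (n : ℕ) (q θ : ℝ) : Prop :=
  ∃ C : ℝ, 0 < C ∧ ∀ δ : ℝ, 0 < δ → δ < 1 → ∀ (N : ℕ) (a e : Fin N → E n), Separated δ e →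
    ∃ P : Finpartition (univ : Finset (Fin N)), (P.parts.card : ℝ) ≤ C * (N : ℝ) ^ (1 - θ) ∧
      ∀ J ∈ P.parts, (J.card : ℝ) ≤ (N : ℝ) ^ θ ∧ normPow q δ a e J ≤
        ENNReal.ofReal (C * δ ^ (n - 1) * (J.card : ℝ) ^ (q - 1 / ((n : ℝ) - 1)))

/-- The inequality of the problem (in the `q`-th power) for all families of tubes, with the loss
`N ^ ((1 - θ) / (n - 1))`; for `θ = 1` this is the inequality of the problem. -/
def LossBound (n : ℕ) (q θ : ℝ) : Prop :=
  ∃ C : ℝ, 0 < C ∧ ∀ δ : ℝ, 0 < δ → δ < 1 → ∀ (N : ℕ) (a e : Fin N → E n), Separated δ e →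
    normPow q δ a e univ ≤ ENNReal.ofReal (C * δ ^ (n - 1) *
      ((N : ℝ) ^ (q - 1 / ((n : ℝ) - 1)) * (N : ℝ) ^ ((1 - θ) / ((n : ℝ) - 1))))

theorem averageBound_iff (n : ℕ) (q θ : ℝ) :
    AverageBound n q θ ↔ Pool.Agent.N401.RS.Avg n q θ := by
  unfold AverageBound Pool.Agent.N401.RS.Avg
  refine exists_congr fun C => and_congr_right fun _ => forall_congr' fun δ => forall_congr' fun _ =>
    forall_congr' fun _ => forall_congr' fun N => forall_congr' fun a => forall_congr' fun e =>
    forall_congr' fun _ => forall_congr' fun K => forall_congr' fun _ => forall_congr' fun hKN =>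
    forall_congr' fun _ => ?_
  have h0 : (N.choose K : ℝ≥0∞) ≠ 0 := by
    exact_mod_cast (Nat.choose_pos hKN).ne'
  unfold average
  rw [ENNReal.div_le_iff' h0 (ENNReal.natCast_ne_top _), ENNReal.ofReal_natCast]
  exact Iff.rfl

theorem partitionBound_iff (n : ℕ) (q θ : ℝ) :
    PartitionBound n q θ ↔ Pool.Agent.N401.RS.Part n q θ := Iff.rfl

theorem lossBound_iff {n : ℕ} {q : ℝ} (hq : 0 < q) (θ : ℝ) :
    LossBound n q θ ↔ Pool.Agent.N401.RS.Loss n q θ := by
  unfold LossBound Pool.Agent.N401.RS.Loss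
  refine exists_congr fun C => and_congr_right fun _ => forall_congr' fun δ => forall_congr' fun _ =>
    forall_congr' fun _ => forall_congr' fun N => forall_congr' fun a => forall_congr' fun e =>
    forall_congr' fun _ => ?_
  rcases Nat.eq_zero_or_pos N with rfl | hN
  · have h : normPow q δ a e univ = 0 := by
      have h1 : ∀ y : E n, tubeSum δ a e univ y ^ q = 0 := by
        intro y
        unfold tubeSum
        rw [univ_eq_empty, sum_empty, ENNReal.zero_rpow_of_pos hq]
      unfold normPow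
      simp only [h1, lintegral_zero]
    have h' : ∫⁻ y, Pool.Agent.N401.RS.cnt (fun i => Pool.Agent.Y254.tube δ (a i) (e i)) univ y ^ q
        = 0 := h
    rw [h, h']
    exact ⟨fun _ => zero_le, fun _ => zero_le⟩
  · have hN0 : (0 : ℝ) < N := by exact_mod_cast hN
    have e1 : (N : ℝ) ^ (q - 1 / ((n : ℝ) - 1)) * (N : ℝ) ^ ((1 - θ) / ((n : ℝ) - 1)) =
        (N : ℝ) ^ (q - θ / ((n : ℝ) - 1)) := by
      rw [← Real.rpow_add hN0]
      congr 1
      ring
    rw [e1]
    exact Iff.rfl

/-- Let `n ≥ 3`.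
(1) Every family of `N` `δ`-tubes with `δ`-separated orientations has a partition into at most
`c N ^ ((n - 2) / (2 (n - 1)))` subfamilies with at most `N ^ (n / (2 (n - 1)))` members which
satisfy the inequality of the problem without loss for all `q > n / (n - 1)`.
(2) For `n / (n - 1) ≤ q ≤ 2` and `0 ≤ θ ≤ 1` the statements `LossBound`, `AverageBound` and
`PartitionBound` are equivalent.
(3) They hold if `n / (n - 1) ≤ q ≤ 2`, `0 < θ ≤ 1` and `θ < (q - 1) n / 2`. -/
theorem result (n : ℕ) (hn : 3 ≤ n) :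
    (∃ (c : ℝ) (C : ℝ → ℝ), 0 < c ∧ (∀ q, 0 < C q) ∧
      ∀ δ : ℝ, 0 < δ → δ < 1 → ∀ (N : ℕ) (a e : Fin N → E n), Separated δ e →
      ∃ P : Finpartition (univ : Finset (Fin N)),
        (P.parts.card : ℝ) ≤ c * (N : ℝ) ^ (((n : ℝ) - 2) / (2 * ((n : ℝ) - 1))) ∧
        ∀ J ∈ P.parts, (J.card : ℝ) ≤ (N : ℝ) ^ ((n : ℝ) / (2 * ((n : ℝ) - 1))) ∧
          ∀ q : ℝ, (n : ℝ) / ((n : ℝ) - 1) < q → normPow q δ a e J ≤
            ENNReal.ofReal (C q * δ ^ (n - 1) * (J.card : ℝ) ^ (q - 1 / ((n : ℝ) - 1)))) ∧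
    (∀ q : ℝ, (n : ℝ) / ((n : ℝ) - 1) ≤ q → q ≤ 2 → ∀ θ : ℝ, 0 ≤ θ → θ ≤ 1 →
      (AverageBound n q θ ↔ LossBound n q θ) ∧ (PartitionBound n q θ ↔ LossBound n q θ)) ∧
    (∀ q : ℝ, (n : ℝ) / ((n : ℝ) - 1) ≤ q → q ≤ 2 → ∀ θ : ℝ, 0 < θ → θ ≤ 1 →
      θ < (q - 1) * n / 2 → AverageBound n q θ ∧ PartitionBound n q θ) := by
  have hn3 : (3 : ℝ) ≤ n := by exact_mod_cast hn
  have hq1 : ∀ q : ℝ, (n : ℝ) / ((n : ℝ) - 1) ≤ q → 1 < q := by
    intro q hq
    have : 1 < (n : ℝ) / ((n : ℝ) - 1) := by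
      rw [lt_div_iff₀ (by linarith)]
      linarith
    linarith
  refine ⟨?_, ?_, ?_⟩
  · have e1 : ((n : ℝ) - 2) / (2 * ((n : ℝ) - 1)) = 1 - (n : ℝ) / (2 * ((n : ℝ) - 1)) := by
      have : 2 * ((n : ℝ) - 1) ≠ 0 := by
        have : 0 < 2 * ((n : ℝ) - 1) := by linarith
        exact this.ne'
      rw [eq_sub_iff_add_eq, ← add_div, div_eq_one_iff_eq this]
      ring
    rw [e1]
    exact Pool.Agent.N401.RS.universal hn
  · intro q hq hq2 θ hθ0 hθ1
    have h1 := hq1 q hq
    rw [averageBound_iff, partitionBound_iff, lossBound_iff (by linarith)]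
    exact ⟨⟨Pool.Agent.N401.RS.bwd (by omega) h1.le hθ0 hθ1,
      Pool.Agent.N401.RS.fwd (by omega) hq hq2⟩,
      ⟨Pool.Agent.N401.RS.loss_of_part (by omega) hq, fun h =>
        Pool.Agent.N401.RS.part_of_avg hθ0 hθ1 (Pool.Agent.N401.RS.fwd (by omega) hq hq2 h)⟩⟩
  · intro q hq hq2 θ hθ0 hθ1 h
    rw [averageBound_iff, partitionBound_iff]
    have h1 := Pool.Agent.N401.RS.fwd (by omega) hq hq2
      (Pool.Agent.N401.RS.unc hn (hq1 q hq) hθ0 hθ1 h)
    exact ⟨h1, Pool.Agent.N401.RS.part_of_avg hθ0.le hθ1 h1⟩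

end Pool.Agent.Results.MP_850839_an.PartitionsWithoutLoss
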