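import Pool.Agent.N248.KT.Fin

/-!
# Tubes in random directions

Let `n ≥ 3` and let `e₁, …, e_M` be independent uniformly distributed directions in `R^n`. Consider
all families of `δ`-tubes in these directions: the positions of the tubes and the subfamily may be
chosen in any way after the directions. This file proves:

* for every `γ > 0`, the inequality of the Kakeya conjecture for `δ`-tubes holds **without any
  loss and in the full range** `q > n / (n - 1)` for all these families, with probability at least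
  `1 - C δ ^ B`, if `M ≤ δ ^ (-(n - 1 - γ))`, **if and only if** the Kakeya maximal inequality holds
  in `L^n` with the loss `δ ^ (-γ - ε)`;
* hence the Kakeya maximal function conjecture is equivalent to the inequality for tubes in
  `δ ^ (-(n - 1 - γ))` random directions, for all `γ > 0`;
* unconditionally, the inequality for tubes in random directions holds for `M ≤ δ ^ (-n / 2)`, and
  for `M ≤ δ ^ (-25 (n - 1) / 42)` if `n ≥ 10`.
-/

set_option autoImplicit false

open MeasureTheory Set Metric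
open scoped ENNReal NNReal

namespace Pool.Agent.Results.MP_850839_an.RandomTubes

/-- `R^n`. -/
abbrev E (n : ℕ) := EuclideanSpace ℝ (Fin n)

/-- The closed `δ`-tube (cylinder of length `1` and radius `δ`) with centre `a` and direction `e`. -/
def tube {n : ℕ} (δ : ℝ) (a e : E n) : Set (E n) :=
  {y | |inner ℝ (y - a) e| ≤ 1 / 2 ∧ ‖(y - a) - (inner ℝ (y - a) e) • e‖ ≤ δ}

/-- The uniform probability measure on the unit sphere. -/
noncomputable def unif (n : ℕ) : Measure (sphere (0 : E n) 1) :=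
  ((volume : Measure (E n)).toSphere univ)⁻¹ • (volume : Measure (E n)).toSphere

/-- The sum of the indicators of the tubes with directions `ω i` and centres `a i`, `i ∈ J`. -/
noncomputable def tubeSum {n M : ℕ} (δ : ℝ) (ω : Fin M → sphere (0 : E n) 1) (a : Fin M → E n)
    (J : Finset (Fin M)) (y : E n) : ℝ≥0∞ :=
  ∑ i ∈ J, (tube δ (a i) (ω i : E n)).indicator 1 y

/-- The inequality of Q1 with constant `C` for all tubes in the directions `ω`: for all positions
`a` and all subfamilies `J`,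
`‖∑_{i ∈ J} 1_{T_i}‖_q ≤ C δ ^ ((n - 1) / q) (#J) ^ (1 - 1 / (q (n - 1)))`. -/
def TubeInequality {n M : ℕ} (q C δ : ℝ) (ω : Fin M → sphere (0 : E n) 1) : Prop :=
  ∀ (a : Fin M → E n) (J : Finset (Fin M)),
    (∫⁻ y, tubeSum δ ω a J y ^ q) ^ (1 / q) ≤
      ENNReal.ofReal (C * δ ^ (((n : ℝ) - 1) / q) * (J.card : ℝ) ^ (1 - 1 / (q * ((n : ℝ) - 1))))

/-- The inequality of Q1 for tubes in random directions: for all `q > n / (n - 1)` and `B > 0` there
is `C` such that for `0 < δ < 1` and `M ≤ δ ^ (-(n - 1 - γ))` independent uniformly distributed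
directions `ω` the probability that `TubeInequality q C δ ω` fails is at most `C δ ^ B`. -/
def RandomBound (n : ℕ) (γ : ℝ) : Prop :=
  ∀ q : ℝ, (n : ℝ) / ((n : ℝ) - 1) < q → ∀ B : ℝ, 0 < B → ∃ C : ℝ, 0 < C ∧
    ∀ δ : ℝ, 0 < δ → δ < 1 → ∀ M : ℕ, (M : ℝ) ≤ δ ^ (-((n : ℝ) - 1 - γ)) →
    (Measure.pi fun _ : Fin M => unif n) {ω | ¬ TubeInequality q C δ ω} ≤
      ENNReal.ofReal (C * δ ^ B)

/-- The Kakeya maximal function of a nonnegative function. -/
noncomputable def kakeyaMax {n : ℕ} (δ : ℝ) (f : E n → ℝ≥0∞) (e : E n) : ℝ≥0∞ :=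
  ⨆ a : E n, (volume (tube δ a e))⁻¹ * ∫⁻ y in tube δ a e, f y

/-- The Kakeya maximal inequality in `L^n` with the loss `δ ^ (-γ - ε)` for all `ε > 0`. The Kakeya
maximal function conjecture in `R^n` is `MaximalBound n 0`. -/
def MaximalBound (n : ℕ) (γ : ℝ) : Prop :=
  ∀ ε : ℝ, 0 < ε → ∃ C : ℝ, 0 < C ∧ ∀ δ : ℝ, 0 < δ → δ < 1 →
    ∀ f : E n → ℝ≥0∞, AEMeasurable f volume →
      ∫⁻ e, kakeyaMax δ f (e : E n) ^ (n : ℝ) ∂(unif n) ≤
        ENNReal.ofReal (C * δ ^ (-γ - ε)) * ∫⁻ y, f y ^ (n : ℝ)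

/-- For `n ≥ 3`:
(1) for `0 < γ ≤ n - 1`, the Kakeya maximal inequality in `L^n` with the loss `δ ^ (-γ)` is
equivalent to the inequality of Q1, without loss and for all `q > n / (n - 1)`, for the tubes in
`δ ^ (-(n - 1 - γ))` random directions;
(2) the Kakeya maximal function conjecture is equivalent to the latter for all `γ > 0`;
(3) the inequality of Q1 holds for the tubes in `δ ^ (-n / 2)` random directions, and, if
`n ≥ 10`, in `δ ^ (-25 (n - 1) / 42)` random directions. -/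
theorem result (n : ℕ) (hn : 3 ≤ n) :
    (∀ γ : ℝ, 0 < γ → γ ≤ (n : ℝ) - 1 → (MaximalBound n γ ↔ RandomBound n γ)) ∧
    (MaximalBound n 0 ↔ ∀ γ : ℝ, 0 < γ → γ ≤ (n : ℝ) - 1 → RandomBound n γ) ∧
    (∀ γ : ℝ, ((n : ℝ) - 1) - n / 2 ≤ γ → RandomBound n γ) ∧
    (10 ≤ n → ∀ γ : ℝ, ((n : ℝ) - 1) - 25 / 42 * ((n : ℝ) - 1) ≤ γ → RandomBound n γ) := by
  obtain ⟨d, rfl⟩ : ∃ d, n = d + 1 := ⟨n - 1, by omega⟩
  have hd : 2 ≤ d := by omega
  have hd0 : (0 : ℝ) < d := by exact_mod_cast (by omega : 0 < d)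
  have e1 : (((d + 1 : ℕ) : ℝ)) = (d : ℝ) + 1 := by push_cast; ring
  have e2 : (((d + 1 : ℕ) : ℝ) - 1) = d := by rw [e1]; ring
  have e3 : (d : ℝ) + 1 = ((d + 1 : ℕ) : ℝ) := e1.symm
  have key1 : ∀ γ : ℝ, RandomBound (d + 1) γ ↔ Pool.Agent.N248.KT.RT d γ := by
    intro γ
    rw [Pool.Agent.N248.KT.RT_iff (by omega)]
    unfold RandomBound TubeInequality
    rw [e2, e1]
    have e4 : ((d : ℝ) + 1) / d = 1 + 1 / (d : ℝ) := by field_simp
    rw [e4]
    exact Iff.rfl
  have key2 : ∀ γ : ℝ, MaximalBound (d + 1) γ ↔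
      Pool.Agent.N248.KR.KB d (Pool.Agent.N248.KR.Pu d) ((d : ℝ) + 1) γ := by
    intro γ
    unfold MaximalBound
    rw [e1]
    exact Iff.rfl
  refine ⟨?_, ?_, ?_, ?_⟩
  · intro γ hγ hγd
    rw [e2] at hγd
    rw [key1, key2]
    exact Pool.Agent.N248.KT.KB_iff_RT hd hγ hγd
  · rw [key2, Pool.Agent.N248.KT.KB_zero hd, e2]
    exact forall_congr' fun γ => by rw [key1]
  · intro γ hγ
    rw [key1]
    refine Pool.Agent.N248.KT.RT_wolff hd ?_
    rw [e2, e1] at hγ
    linarith
  · intro hn γ hγ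
    rw [key1]
    refine Pool.Agent.N248.KT.RT_hybrid (by omega) ?_
    rw [e2] at hγ
    linarith

end Pool.Agent.Results.MP_850839_an.RandomTubes
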