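import Pool.Agent.N220.Kak.Keich3

set_option autoImplicit false

/-!
# MP_850839: the endpoint `q = n/(n-1)` for reducible families, with the exact power of the logarithm

Work in `ℝ^n = ℝ^d × ℝ`, `n = d + 1`, with its Euclidean norm (`Space d`).  The axis of a tube with
direction `dir v`, i.e. parallel to `(v, 1)`, is given by the point `(β, 0)` where it meets the
hyperplane of height `0`: `v` is the slope and `β` the position of the tube.

All families in the plane are called *reducible* at the scale `δ`.  In higher dimensions a family is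
reducible if in some orthonormal basis of `ℝ^d` the first coordinates of the positions of any two
tubes agree up to `K δ` as soon as the first coordinates of their slopes agree up to `δ`, and if the
subfamilies of the tubes whose first coordinate of the slope lies in an interval `[c δ, (c + 1) δ)`,
`c ∈ ℤ`, are, after forgetting the first coordinate, reducible families in one dimension less (with
bases of `ℝ^(d-1)` which may depend on `c`).  No regularity is assumed.  The triangular families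
(the `j`-th coordinate of the position depends, up to `K δ`, only on the first `j` coordinates of the
slope, up to `δ`, for all `j` but the last) are reducible.

At the endpoint `q = n/(n-1)` the inequality of the problem is false already for these families.  We
determine its exact form for them, for any number `#𝒯` of tubes: it holds with the additional factor
`(1 + log #𝒯)^{1/q}`, and no smaller factor is possible, whatever the number of tubes is.  It is the
case `q = n/(n-1)` of a family of inequalities with weights in the mixed norms of height and slice,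
one for every `q` in `(1, n/(n-1)]`, all of them with the exact power of the logarithm.
-/

open MeasureTheory Set ENNReal NNReal

namespace Pool.Agent.Results.MP_850839_an.ReducibleEndpoint

/-- Euclidean space `ℝ^d`. -/
abbrev Vec (d : ℕ) : Type := EuclideanSpace ℝ (Fin d)

/-- Euclidean space `ℝ^{d+1}`, written as `ℝ^d × ℝ` with the Euclidean norm. -/
abbrev Space (d : ℕ) : Type := WithLp 2 (Vec d × ℝ)

/-- The closed tube of length `1` and radius `δ` with centre `a` and axis direction `e`. -/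
def tube {d : ℕ} (δ : ℝ) (e a : Space d) : Set (Space d) :=
  {y | |inner ℝ (y - a) e| ≤ 1 / 2 ∧ ‖(y - a) - (inner ℝ (y - a) e : ℝ) • e‖ ≤ δ}

/-- The unit vector `(v, 1)/√(1+|v|²)`. -/
noncomputable def dir {d : ℕ} (v : Vec d) : Space d :=
  (√(1 + ‖v‖ ^ 2))⁻¹ • WithLp.toLp 2 (v, (1:ℝ))

/-- Orthonormal coordinates of `ℝ^d`: a linear isometry of `ℝ^d` onto itself. -/
abbrev Iso (d : ℕ) : Type := Vec d ≃ₗᵢ[ℝ] Vec d

/-- The `j`-th coordinate of `x` in the orthonormal coordinates given by `U`. -/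
noncomputable def coord {d : ℕ} (U : Iso d) (x : Vec d) (j : Fin d) : ℝ := U x j

/-- The vector of the coordinates of `x`, in the orthonormal coordinates given by `U`, without the
first one (number `0`). -/
noncomputable def rest {d : ℕ} (U : Iso (d + 1)) (x : Vec (d + 1)) : Vec d :=
  WithLp.toLp 2 (fun j => coord U x j.succ)

/-- The tubes in `J` whose slope has its first coordinate, in the coordinates given by `U`, in the
interval `[c δ, (c + 1) δ)`. -/
def layer (δ : ℝ) {ι : Type} {d : ℕ} (U : Iso (d + 1)) (J : Set ι) (v : ι → Vec (d + 1)) (c : ℤ) :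
    Set ι :=
  {i | i ∈ J ∧ c * δ ≤ coord U (v i) 0 ∧ coord U (v i) 0 < (c + 1) * δ}

/-- The family of the tubes with slopes `v i` and positions `β i`, `i ∈ J`, is reducible at the scale
`δ` with the constant `K`. -/
inductive Reducible (K δ : ℝ) {ι : Type} : (d : ℕ) → Set ι → (ι → Vec d) → (ι → Vec d) → Prop
  | planar (d : ℕ) (J : Set ι) (v β : ι → Vec d) (hd : d ≤ 1) : Reducible K δ d J v β
  | split (d : ℕ) (J : Set ι) (v β : ι → Vec (d + 1)) (U : Iso (d + 1))
      (h1 : ∀ i ∈ J, ∀ i' ∈ J, |coord U (v i) 0 - coord U (v i') 0| ≤ δ →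
        |coord U (β i) 0 - coord U (β i') 0| ≤ K * δ)
      (h2 : ∀ c : ℤ, Reducible K δ d (layer δ U J v c) (fun i => rest U (v i))
        (fun i => rest U (β i))) : Reducible K δ (d + 1) J v β

/-- The positions `β i` are triangular in the orthonormal coordinates given by `U`: if the first `j`
coordinates of two slopes agree up to `δ`, then the `j`-th coordinates of the two positions agree up
to `K δ`, for all `j` but the last. -/
def Triangular (K δ : ℝ) {d : ℕ} {ι : Type} (U : Iso d) (v β : ι → Vec d) : Prop :=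
  ∀ (i i' : ι) (j : Fin d), (j : ℕ) + 1 < d →
    (∀ l, l ≤ j → |coord U (v i) l - coord U (v i') l| ≤ δ) →
    |coord U (β i) j - coord U (β i') j| ≤ K * δ

theorem Reducible.of_forall {K δ : ℝ} (hδ : 0 < δ) {ι : Type} : ∀ (d : ℕ) (J : Set ι) (v β : ι → Vec d),
    (∀ i ∈ J, ∀ i' ∈ J, ∀ j : Fin d, (j : ℕ) + 1 < d → (∀ l, l ≤ j → |v i l - v i' l| ≤ δ) →
      |β i j - β i' j| ≤ K * δ) → Reducible K δ d J v β
  | 0, _, _, _, _ => Reducible.planar _ _ _ _ (by omega)
  | 1, _, _, _, _ => Reducible.planar _ _ _ _ (by omega)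
  | d + 2, J, v, β, h => by
    refine Reducible.split _ _ _ _ (LinearIsometryEquiv.refl ℝ _) ?_ ?_
    · intro i hi i' hi' h0
      apply h i hi i' hi' 0 (by simp)
      intro l hl
      have : l = 0 := le_antisymm hl (Fin.zero_le _)
      rw [this]
      exact h0
    · intro c
      apply Reducible.of_forall hδ (d + 1)
      intro i hi i' hi' j hjd hj
      obtain ⟨hiJ, h1, h2⟩ := hi
      obtain ⟨hiJ', h3, h4⟩ := hi'
      apply h i hiJ i' hiJ' j.succ (by rw [Fin.val_succ]; omega)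
      intro l hl
      refine Fin.cases ?_ (fun l => ?_) l hl
      · intro _
        have e1 : coord (LinearIsometryEquiv.refl ℝ (Vec (d + 2))) (v i) 0 = v i 0 := rfl
        have e2 : coord (LinearIsometryEquiv.refl ℝ (Vec (d + 2))) (v i') 0 = v i' 0 := rfl
        rw [e1] at h1 h2
        rw [e2] at h3 h4
        rw [abs_le]
        constructor <;> linarith
      · intro hl'
        exact hj l (Fin.succ_le_succ_iff.1 hl')

/-- Triangular families are reducible. -/
theorem Triangular.reducible {K δ : ℝ} (hδ : 0 < δ) {d : ℕ} {ι : Type} {U : Iso d}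
    {v β : ι → Vec d} (h : Triangular K δ U v β) : Reducible K δ d univ v β := by
  match d with
  | 0 => exact Reducible.planar _ _ _ _ (by omega)
  | 1 => exact Reducible.planar _ _ _ _ (by omega)
  | d + 2 =>
    refine Reducible.split _ _ _ _ U ?_ ?_
    · intro i _ i' _ h0
      apply h i i' 0 (by simp)
      intro l hl
      have : l = 0 := le_antisymm hl (Fin.zero_le _)
      rw [this]
      exact h0
    · intro c
      apply Reducible.of_forall hδ (d + 1)
      intro i hi i' hi' j hjd hj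
      obtain ⟨-, h1, h2⟩ := hi
      obtain ⟨-, h3, h4⟩ := hi'
      apply h i i' j.succ (by rw [Fin.val_succ]; omega)
      intro l hl
      refine Fin.cases ?_ (fun l => ?_) l hl
      · intro _
        rw [abs_le]
        constructor <;> linarith
      · intro hl'
        exact hj l (Fin.succ_le_succ_iff.1 hl')

theorem Reducible.toRed {K δ : ℝ} (hδ : 0 < δ) {ι : Type} : ∀ (d : ℕ) (J : Finset ι) (v β : ι → Vec d),
    Reducible K δ d (J : Set ι) v β →
    Pool.Agent.R134.Kak.Red K d J (fun i => δ⁻¹ • v i) (fun i => δ⁻¹ • β i)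
  | 0, _, _, _, _ => trivial
  | 1, _, _, _, _ => trivial
  | d + 2, J, v, β, h => by
    classical
    obtain ⟨U, h1, h2⟩ : ∃ U : Vec (d + 2) ≃ₗᵢ[ℝ] Vec (d + 2),
        (∀ i ∈ (J : Set ι), ∀ i' ∈ (J : Set ι), |U (v i) 0 - U (v i') 0| ≤ δ →
          |U (β i) 0 - U (β i') 0| ≤ K * δ) ∧
        ∀ c : ℤ, Reducible K δ (d + 1) (layer δ U J v c) (fun i => rest U (v i))
          (fun i => rest U (β i)) := by
      cases h with
      | planar _ _ _ _ hd => omega
      | split _ _ _ _ U h1 h2 => exact ⟨U, h1, h2⟩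
    have hδ' : 0 < δ⁻¹ := inv_pos.2 hδ
    have hsc : ∀ x : Vec (d + 2), U (δ⁻¹ • x) 0 = δ⁻¹ * U x 0 := by
      intro x
      rw [map_smul]
      rfl
    refine ⟨U, ?_, ?_⟩
    · intro i hi i' hi' h0
      rw [hsc, hsc, ← mul_sub, abs_mul, abs_of_pos hδ'] at h0 ⊢
      have h3 := h1 i (Finset.mem_coe.2 hi) i' (Finset.mem_coe.2 hi') (by
        rw [inv_mul_le_iff₀ hδ] at h0
        linarith)
      rw [inv_mul_le_iff₀ hδ]
      linarith
    · intro c
      have h3 := h2 c
      have e : layer δ U (J : Set ι) v c =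
          ((J.filter (fun i => ⌊U (δ⁻¹ • v i) 0⌋ = c) : Finset ι) : Set ι) := by
        ext i
        show i ∈ (J : Set ι) ∧ c * δ ≤ U (v i) 0 ∧ U (v i) 0 < (c + 1) * δ ↔ _
        rw [Finset.mem_coe, Finset.mem_coe, Finset.mem_filter, hsc, Int.floor_eq_iff,
          inv_mul_eq_div, le_div_iff₀ hδ, div_lt_iff₀ hδ]
      rw [e] at h3
      have ht : ∀ w : ι → Vec (d + 2), (fun i => Pool.Agent.R134.Kak.tl (U (δ⁻¹ • w i))) =
          fun i => δ⁻¹ • rest U (w i) := by
        intro w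
        funext i
        rw [map_smul]
        rfl
      show Pool.Agent.R134.Kak.Red K (d + 1) (J.filter (fun i => ⌊U (δ⁻¹ • v i) 0⌋ = c))
        (fun i => Pool.Agent.R134.Kak.tl (U (δ⁻¹ • v i))) (fun i => Pool.Agent.R134.Kak.tl (U (δ⁻¹ • β i)))
      rw [ht v, ht β]
      exact Reducible.toRed hδ (d + 1) _ _ _ h3

/-- The slopes `v i` and the heights `s i` of the centres are admissible: `|v i| ≤ 1`, `|s i| ≤ S`, and
the directions of the tubes are `δ`-separated. -/
def Admissible (S δ : ℝ) {d : ℕ} {ι : Type} (v : ι → Vec d) (s : ι → ℝ) : Prop :=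
  (∀ i, ‖v i‖ ≤ 1) ∧ (∀ i, |s i| ≤ S) ∧ ∀ i j, i ≠ j → δ ≤ ‖dir (v i) - dir (v j)‖

/-- The sum of the indicators of the tubes with slopes `v i`, positions `β i` and centres of height
`s i`. -/
noncomputable def tubeSum (δ : ℝ) {d : ℕ} {ι : Type} [Fintype ι] (v β : ι → Vec d) (s : ι → ℝ)
    (y : Space d) : ℝ :=
  ∑ i, (tube δ (dir (v i)) (WithLp.toLp 2 (β i + s i • v i, s i))).indicator (fun _ => (1 : ℝ)) y

/-- The critical exponent `n/(n-1)`, `n = d + 1`. -/
noncomputable def crit (d : ℕ) : ℝ := ((d : ℝ) + 1) / d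

/-- The right side of the inequality of the problem for `N` tubes with the critical exponent, without
constant and with the additional factor `(1 + log N)^{1/q}`, `q = crit d`. -/
noncomputable def endpointBound (d : ℕ) (δ : ℝ) (N : ℕ) : ℝ :=
  δ ^ (d / crit d) * (N : ℝ) ^ (1 - 1 / (crit d * d)) * (1 + Real.log N) ^ (1 / crit d)

/-- The sum of the indicators of the tubes with weights `w i`. -/
noncomputable def weightedSum (δ : ℝ) {d : ℕ} {ι : Type} [Fintype ι] (w : ι → ℝ≥0) (v β : ι → Vec d)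
    (s : ι → ℝ) (y : Space d) : ℝ≥0∞ :=
  ∑ i, (tube δ (dir (v i)) (WithLp.toLp 2 (β i + s i • v i, s i))).indicator (fun _ => (w i : ℝ≥0∞)) y

/-- The integral over all heights `t` of the power `1/((q-1)(n-1))` of the integral of the power `q`
of the weighted sum over the horizontal slice of height `t`: a power of its norm in `L^r` of the height
with values in `L^q` of the slice, `r = q/((q-1)(n-1))`.  For the critical exponent `q = n/(n-1)` it is
the integral of the power `q` of the weighted sum. -/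
noncomputable def mixed (q δ : ℝ) {d : ℕ} {ι : Type} [Fintype ι] (w : ι → ℝ≥0) (v β : ι → Vec d)
    (s : ι → ℝ) : ℝ≥0∞ :=
  ∫⁻ t : ℝ, (∫⁻ x : Vec d, weightedSum δ w v β s (WithLp.toLp 2 (x, t)) ^ q) ^ (1 / ((q - 1) * d))

open Pool.Agent.N220.Kak (Fam Fw Fs Fs_fub Fs_meas)
open Pool.Agent.H810R3.Tub (Fe)

theorem fam {e : ℕ} {K S : ℝ≥0} {δ : ℝ} (hδ : 0 < δ) (hδ1 : δ < 1) {ι : Type} [Fintype ι]
    {v β : ι → Vec (e + 1)} {s : ι → ℝ} (hA : Admissible S δ v s) (hR : Reducible K δ (e + 1) univ v β) :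
    Fam e K S δ v β s := by
  refine ⟨hδ, hδ1, hA.1, hA.2.1, hA.2.2, ?_⟩
  apply Reducible.toRed hδ (e + 1) Finset.univ v β
  rw [Finset.coe_univ]
  exact hR

theorem weighted_eq {d : ℕ} {ι : Type} [Fintype ι] (δ : ℝ) (w : ι → ℝ≥0) (v β : ι → Vec d) (s : ι → ℝ) (x : Vec d)
    (t : ℝ) : weightedSum δ w v β s (WithLp.toLp 2 (x, t)) = Fw δ (fun i => (w i : ℝ≥0∞)) v β s x t := by
  classical
  unfold weightedSum Fw
  refine Finset.sum_congr rfl fun i _ => ?_
  show _ = (w i : ℝ≥0∞) * (tube δ (dir (v i)) (WithLp.toLp 2 (β i + s i • v i, s i))).indicator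
    (fun _ => (1 : ℝ≥0∞)) (WithLp.toLp 2 (x, t))
  by_cases h : (WithLp.toLp 2 (x, t) : Space d) ∈ tube δ (dir (v i)) (WithLp.toLp 2 (β i + s i • v i, s i))
  · rw [indicator_of_mem h, indicator_of_mem h, mul_one]
  · rw [indicator_of_notMem h, indicator_of_notMem h, mul_zero]

theorem tubeSum_enorm {d : ℕ} {ι : Type} [Fintype ι] (δ : ℝ) (v β : ι → Vec d) (s : ι → ℝ) (y : Space d) :
    ‖tubeSum δ v β s y‖ₑ = Fs δ v β s y := by
  classical
  have h0 : ∀ i, 0 ≤ (tube δ (dir (v i)) (WithLp.toLp 2 (β i + s i • v i, s i))).indicator (fun _ => (1 : ℝ)) y :=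
    fun i => indicator_nonneg (fun _ _ => zero_le_one) y
  unfold tubeSum
  rw [Real.enorm_eq_ofReal (Finset.sum_nonneg fun i _ => h0 i), ENNReal.ofReal_sum_of_nonneg fun i _ => h0 i]
  show _ = ∑ i, (tube δ (dir (v i)) (WithLp.toLp 2 (β i + s i • v i, s i))).indicator (fun _ => (1 : ℝ≥0∞)) y
  refine Finset.sum_congr rfl fun i _ => ?_
  by_cases h : y ∈ tube δ (dir (v i)) (WithLp.toLp 2 (β i + s i • v i, s i))
  · rw [indicator_of_mem h, indicator_of_mem h, ENNReal.ofReal_one]
  · rw [indicator_of_notMem h, indicator_of_notMem h, ENNReal.ofReal_zero]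

theorem norm_eq {d : ℕ} {ι : Type} [Fintype ι] (δ : ℝ) (v β : ι → Vec d) (s : ι → ℝ) {q : ℝ} (hq : 0 < q) :
    eLpNorm (tubeSum δ v β s) (ENNReal.ofReal q) volume =
      (∫⁻ t : ℝ, ∫⁻ x : Vec d, Fe δ v β s x t ^ q) ^ (1 / q) := by
  have hp0 : ENNReal.ofReal q ≠ 0 := by
    rw [ne_eq, ENNReal.ofReal_eq_zero, not_le]
    exact hq
  rw [eLpNorm_eq_lintegral_rpow_enorm_toReal hp0 ENNReal.ofReal_ne_top, ENNReal.toReal_ofReal hq.le]
  congr 1
  rw [← Fs_fub]
  refine lintegral_congr fun y => ?_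
  rw [tubeSum_enorm]

theorem crit_eq (e : ℕ) : crit (e + 1) = 1 + 1 / ((e : ℝ) + 1) := by
  unfold crit
  push_cast
  have : (0 : ℝ) < (e : ℝ) + 1 := by positivity
  field_simp

theorem crit_sub (e : ℕ) : (crit (e + 1) - 1) * ((e : ℝ) + 1) = 1 := by
  rw [crit_eq]
  have : (0 : ℝ) < (e : ℝ) + 1 := by positivity
  field_simp
  ring

theorem bound_eq (e : ℕ) {δ : ℝ} (hδ : 0 < δ) (N : ℕ) :
    endpointBound (e + 1) δ N = (δ ^ (e + 1) * N * (1 + Real.log N)) ^ (1 / crit (e + 1)) := by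
  have he : (0 : ℝ) < (e : ℝ) + 1 := by positivity
  have hc : 0 < crit (e + 1) := by rw [crit_eq]; positivity
  have hl := Pool.Agent.N220.Kak.ell_real_pos N
  unfold endpointBound
  rw [Real.mul_rpow (by positivity) hl.le, Real.mul_rpow (by positivity) (Nat.cast_nonneg N)]
  congr 2
  · rw [← Real.rpow_natCast, ← Real.rpow_mul hδ.le]
    congr 1
    ring
  · congr 1
    rw [crit_eq]
    push_cast
    field_simp
    ring

theorem bound_rpow (e : ℕ) {δ C : ℝ} (hδ : 0 < δ) (hC : 0 ≤ C) (N : ℕ) :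
    ENNReal.ofReal (C * (δ ^ (e + 1) * N * (1 + Real.log N))) ^ (1 / crit (e + 1)) =
      ENNReal.ofReal (C ^ (1 / crit (e + 1)) * endpointBound (e + 1) δ N) := by
  have hc : 0 < crit (e + 1) := by rw [crit_eq]; positivity
  have hl := Pool.Agent.N220.Kak.ell_real_pos N
  rw [ENNReal.ofReal_rpow_of_nonneg (by positivity) (by positivity), bound_eq e hδ N,
    Real.mul_rpow hC (by positivity)]

/-- The families of the lower bounds. -/
theorem example_family (e m : ℕ) {δ : ℝ} (hδ : 0 < δ) (h1 : 3 * ((e : ℝ) + 1) * (2 ^ m * δ) ≤ 1) :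
    Admissible 0 δ (Pool.Agent.N220.Kak.kv (e + 1) m (3 * (2 ^ m * δ))) (fun _ => 0) ∧
    Triangular 0 δ (LinearIsometryEquiv.refl ℝ (Vec (e + 1)))
      (Pool.Agent.N220.Kak.kv (e + 1) m (3 * (2 ^ m * δ))) (Pool.Agent.N220.Kak.kb (e + 1) m (3 * (2 ^ m * δ))) := by
  refine ⟨⟨Pool.Agent.N220.Kak.kv_norm e m hδ h1, fun i => by simp, ?_⟩, ?_⟩
  · intro i j hij
    have h2 := Pool.Agent.N220.Kak.kv_sep (e + 1) m hδ hij
    have h3 := Pool.Agent.N220.Kak.dir_sep _ _ (Pool.Agent.N220.Kak.kv_norm e m hδ h1 i)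
      (Pool.Agent.N220.Kak.kv_norm e m hδ h1 j)
    have h4 : ‖Pool.Agent.N220.Kak.kv (e + 1) m (3 * (2 ^ m * δ)) i -
        Pool.Agent.N220.Kak.kv (e + 1) m (3 * (2 ^ m * δ)) j‖ ≤
        3 * ‖dir (Pool.Agent.N220.Kak.kv (e + 1) m (3 * (2 ^ m * δ)) i) -
          dir (Pool.Agent.N220.Kak.kv (e + 1) m (3 * (2 ^ m * δ)) j)‖ := h3
    linarith
  · intro i i' j _ hl
    have h2 := hl j le_rfl
    have h3 : i j = i' j := by
      apply Pool.Agent.N220.Kak.kv_eq (e + 1) m hδ
      exact lt_of_le_of_lt h2 (by linarith)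
    show |Pool.Agent.N220.Kak.kb (e + 1) m (3 * (2 ^ m * δ)) i j -
      Pool.Agent.N220.Kak.kb (e + 1) m (3 * (2 ^ m * δ)) i' j| ≤ 0 * δ
    have h4 : Pool.Agent.N220.Kak.kb (e + 1) m (3 * (2 ^ m * δ)) i j =
        Pool.Agent.N220.Kak.kb (e + 1) m (3 * (2 ^ m * δ)) i' j := by
      show 3 * (2 ^ m * δ) * (3 * Pool.Agent.N220.Kak.gg m (2 / ((m : ℝ) + 1)) (i j) +
        3 / 2 * Pool.Agent.N220.Kak.cc m (i j)) = _
      rw [h3]
      rfl
    rw [h4, sub_self, abs_zero, zero_mul]

theorem log_le (e m : ℕ) : 1 + Real.log (Fintype.card (Fin (e + 1) → Fin (2 ^ m)) : ℕ) ≤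
    ((e : ℝ) + 1) * ((m : ℝ) + 1) := by
  rw [Fintype.card_fun, Fintype.card_fin, Fintype.card_fin]
  push_cast
  rw [← pow_mul, Real.log_pow]
  have h1 : Real.log 2 ≤ 1 := by
    have := Real.log_two_lt_d9
    linarith
  have h2 : ((m * (e + 1) : ℕ) : ℝ) * Real.log 2 ≤ ((m * (e + 1) : ℕ) : ℝ) * 1 :=
    mul_le_mul_of_nonneg_left h1 (Nat.cast_nonneg _)
  have h3 : (0 : ℝ) ≤ e := Nat.cast_nonneg e
  push_cast at h2 ⊢
  nlinarith

/-- **The endpoint `q = n/(n-1)`, `n = d + 1`, for reducible families, and the mixed norms for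
`1 < q ≤ n/(n-1)`, with the exact power of the logarithm, for any number of tubes.** -/
theorem result (d : ℕ) (hd : 1 ≤ d) :
    (∀ K S : ℝ≥0,
      (∃ C : ℝ, 0 < C ∧ ∀ δ : ℝ, 0 < δ → δ < 1 → ∀ (ι : Type) [Fintype ι] (v β : ι → Vec d) (s : ι → ℝ),
        Admissible S δ v s → Reducible K δ d univ v β →
        eLpNorm (tubeSum δ v β s) (ENNReal.ofReal (crit d)) volume ≤
          ENNReal.ofReal (C * endpointBound d δ (Fintype.card ι))) ∧
      ∀ q : ℝ, 1 < q → q ≤ crit d → ∃ C : ℝ, 0 < C ∧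
        ∀ δ : ℝ, 0 < δ → δ < 1 → ∀ (ι : Type) [Fintype ι] (v β : ι → Vec d) (s : ι → ℝ),
        Admissible S δ v s → Reducible K δ d univ v β → ∀ w : ι → ℝ≥0,
        mixed q δ w v β s ≤ ENNReal.ofReal (C * (δ ^ d * ∑ i, (w i : ℝ) ^ q) ^ (1 / ((q - 1) * d)) *
          (1 + Real.log (Fintype.card ι)))) ∧
    ∃ c : ℝ → ℝ, (∀ q, 1 < q → 0 < c q) ∧ ∀ (m : ℕ) (δ : ℝ), 0 < δ → 3 * d * (2 ^ m * δ) ≤ 1 →
      ∃ v β : (Fin d → Fin (2 ^ m)) → Vec d,
        Admissible 0 δ v (fun _ => 0) ∧ Triangular 0 δ (LinearIsometryEquiv.refl ℝ (Vec d)) v β ∧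
        Reducible 0 δ d univ v β ∧
        ENNReal.ofReal (c (crit d) * endpointBound d δ (2 ^ (m * d))) ≤
          eLpNorm (tubeSum δ v β (fun _ => 0)) (ENNReal.ofReal (crit d)) volume ∧
        ∀ q : ℝ, 1 < q → q ≤ crit d →
          ENNReal.ofReal (c q * (δ ^ d * 2 ^ (m * d)) ^ (1 / ((q - 1) * d)) *
            (1 + Real.log (2 ^ (m * d)))) ≤ mixed q δ (fun _ => 1) v β (fun _ => 0) := by
  classical
  obtain ⟨e, rfl⟩ : ∃ e, d = e + 1 := ⟨d - 1, by omega⟩
  have hcast : ((e + 1 : ℕ) : ℝ) = (e : ℝ) + 1 := by push_cast; rfl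
  have he : (0 : ℝ) < (e : ℝ) + 1 := by positivity
  have hc1 : 1 < crit (e + 1) := by
    rw [crit_eq]
    have : 0 < 1 / ((e : ℝ) + 1) := by positivity
    linarith
  have hc0 : 0 < crit (e + 1) := by linarith
  refine ⟨fun K S => ⟨?_, ?_⟩, ?_⟩
  · obtain ⟨C, hC⟩ := Pool.Agent.N220.Kak.endpoint e K S
    refine ⟨((C : ℝ) + 1) ^ (1 / crit (e + 1)), by positivity, ?_⟩
    intro δ hδ hδ1 ι _ v β s hA hR
    have h := hC δ ι v β s (fam hδ hδ1 hA hR)
    rw [norm_eq δ v β s hc0, ← bound_rpow e hδ (by positivity)]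
    apply ENNReal.rpow_le_rpow _ (by positivity)
    rw [crit_eq]
    refine h.trans ?_
    rw [Pool.Agent.N220.Kak.ell, ← ENNReal.ofReal_natCast, ← ENNReal.ofReal_mul (by positivity),
      ← ENNReal.ofReal_coe_nnreal, ← ENNReal.ofReal_mul (NNReal.coe_nonneg C), ← ENNReal.ofReal_mul (by positivity)]
    apply ENNReal.ofReal_le_ofReal
    have hl := Pool.Agent.N220.Kak.ell_real_pos (Fintype.card ι)
    rw [mul_assoc (C : ℝ)]
    exact mul_le_mul_of_nonneg_right (by linarith) (by positivity)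
  · intro q hq hq2
    have hθ : (q - 1) * ((e : ℝ) + 1) ≤ 1 := by
      have h5 := crit_sub e
      have h6 : (q - 1) * ((e : ℝ) + 1) ≤ (crit (e + 1) - 1) * ((e : ℝ) + 1) :=
        mul_le_mul_of_nonneg_right (by linarith) he.le
      linarith
    obtain ⟨C, hC⟩ := Pool.Agent.N220.Kak.mixed e K S hq hθ
    refine ⟨(C : ℝ) + 1, by positivity, ?_⟩
    intro δ hδ hδ1 ι _ v β s hA hR w
    have h := hC δ ι v β s (fam hδ hδ1 hA hR) (fun i => (w i : ℝ≥0∞))
    unfold mixed
    simp only [weighted_eq]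
    rw [hcast]
    refine h.trans ?_
    have hs0 : 0 ≤ 1 / ((q - 1) * ((e : ℝ) + 1)) := by
      have : 0 < q - 1 := by linarith
      positivity
    have e1 : ∑ i, (w i : ℝ≥0∞) ^ q = ENNReal.ofReal (∑ i, (w i : ℝ) ^ q) := by
      rw [ENNReal.ofReal_sum_of_nonneg (fun i _ => by positivity)]
      refine Finset.sum_congr rfl fun i _ => ?_
      rw [← ENNReal.ofReal_rpow_of_nonneg (NNReal.coe_nonneg _) (by linarith), ENNReal.ofReal_coe_nnreal]
    have hW : 0 ≤ ∑ i, (w i : ℝ) ^ q := Finset.sum_nonneg fun i _ => by positivity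
    rw [e1, ← ENNReal.ofReal_mul (by positivity), ENNReal.ofReal_rpow_of_nonneg (by positivity) hs0,
      Pool.Agent.N220.Kak.ell, ← ENNReal.ofReal_coe_nnreal, ← ENNReal.ofReal_mul (NNReal.coe_nonneg C),
      ← ENNReal.ofReal_mul (by positivity)]
    apply ENNReal.ofReal_le_ofReal
    have hl := Pool.Agent.N220.Kak.ell_real_pos (Fintype.card ι)
    gcongr
    linarith
  · -- the lower bounds
    have hlow : ∀ q : ℝ, ∃ c : ℝ, (1 < q → 0 < c) ∧ (1 < q → ∀ (m : ℕ) (δ : ℝ), 0 < δ →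
        3 * ((e : ℝ) + 1) * (2 ^ m * δ) ≤ 1 →
        ENNReal.ofReal (c * ((2 ^ m * δ) ^ (e + 1)) ^ (1 / ((q - 1) * ((e : ℝ) + 1))) * ((m : ℝ) + 1)) ≤
          ∫⁻ t : ℝ, (∫⁻ x, Fe δ (Pool.Agent.N220.Kak.kv (e + 1) m (3 * (2 ^ m * δ)))
            (Pool.Agent.N220.Kak.kb (e + 1) m (3 * (2 ^ m * δ))) (fun _ => 0) x t ^ q) ^
            (1 / ((q - 1) * ((e : ℝ) + 1)))) := by
      intro q
      by_cases hq : 1 < q
      · obtain ⟨c, hc, h⟩ := Pool.Agent.N220.Kak.keich_mixed e hq
        exact ⟨c, fun _ => hc, fun _ => h⟩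
      · exact ⟨0, fun h => absurd h hq, fun h => absurd h hq⟩
    choose c hcpos hclow using hlow
    set c1 : ℝ → ℝ := fun q => min (c q / ((e : ℝ) + 1)) ((c q / ((e : ℝ) + 1)) ^ (1 / crit (e + 1))) with hc1def
    refine ⟨c1, ?_, ?_⟩
    · intro q hq
      have := hcpos q hq
      exact lt_min (by positivity) (by positivity)
    intro m δ hδ h1
    rw [hcast] at h1
    obtain ⟨hA, hT⟩ := example_family e m hδ h1
    refine ⟨_, _, hA, hT, hT.reducible hδ, ?_⟩
    have hlog : 1 + Real.log (2 ^ (m * (e + 1))) ≤ ((e : ℝ) + 1) * ((m : ℝ) + 1) := by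
      have h2 := log_le e m
      rw [Fintype.card_fun, Fintype.card_fin, Fintype.card_fin] at h2
      push_cast at h2
      rw [← pow_mul] at h2
      exact h2
    have hlog0 : 0 < 1 + Real.log (2 ^ (m * (e + 1))) := by
      have : 0 ≤ Real.log ((2 : ℝ) ^ (m * (e + 1))) := Real.log_nonneg (one_le_pow₀ (by norm_num))
      linarith
    have hkey : ∀ q : ℝ, 1 < q → ENNReal.ofReal (c q / ((e : ℝ) + 1) * (δ ^ (e + 1) * 2 ^ (m * (e + 1))) ^
        (1 / ((q - 1) * ((e : ℝ) + 1))) * (1 + Real.log (2 ^ (m * (e + 1))))) ≤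
          ∫⁻ t : ℝ, (∫⁻ x, Fe δ (Pool.Agent.N220.Kak.kv (e + 1) m (3 * (2 ^ m * δ)))
            (Pool.Agent.N220.Kak.kb (e + 1) m (3 * (2 ^ m * δ))) (fun _ => 0) x t ^ q) ^
            (1 / ((q - 1) * ((e : ℝ) + 1))) := by
      intro q hq
      refine le_trans (ENNReal.ofReal_le_ofReal ?_) (hclow q hq m δ hδ h1)
      have e2 : δ ^ (e + 1) * 2 ^ (m * (e + 1)) = (2 ^ m * δ) ^ (e + 1) := by
        rw [mul_pow, ← pow_mul]
        ring
      rw [e2]
      have hcq := hcpos q hq
      calc c q / ((e : ℝ) + 1) * ((2 ^ m * δ) ^ (e + 1)) ^ (1 / ((q - 1) * ((e : ℝ) + 1))) *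
            (1 + Real.log (2 ^ (m * (e + 1))))
          ≤ c q / ((e : ℝ) + 1) * ((2 ^ m * δ) ^ (e + 1)) ^ (1 / ((q - 1) * ((e : ℝ) + 1))) *
            (((e : ℝ) + 1) * ((m : ℝ) + 1)) := mul_le_mul_of_nonneg_left hlog (by positivity)
        _ = _ := by field_simp
    constructor
    · have h2 := hkey (crit (e + 1)) hc1
      rw [crit_sub] at h2
      simp only [div_one, ENNReal.rpow_one, Real.rpow_one] at h2
      rw [norm_eq _ _ _ _ hc0]
      refine le_trans ?_ (ENNReal.rpow_le_rpow h2 (by positivity))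
      have hcq := hcpos _ hc1
      have e3 : c (crit (e + 1)) / ((e : ℝ) + 1) * (δ ^ (e + 1) * 2 ^ (m * (e + 1))) *
          (1 + Real.log (2 ^ (m * (e + 1)))) = c (crit (e + 1)) / ((e : ℝ) + 1) *
          (δ ^ (e + 1) * ((2 ^ (m * (e + 1)) : ℕ) : ℝ) * (1 + Real.log ((2 ^ (m * (e + 1)) : ℕ) : ℝ))) := by
        push_cast
        ring
      rw [e3, bound_rpow e hδ (by positivity)]
      apply ENNReal.ofReal_le_ofReal
      apply mul_le_mul_of_nonneg_right (min_le_right _ _)
      rw [bound_eq e hδ]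
      have := Pool.Agent.N220.Kak.ell_real_pos (2 ^ (m * (e + 1)))
      positivity
    · intro q hq _
      have h2 := hkey q hq
      unfold mixed
      simp only [weighted_eq, ENNReal.coe_one, Pool.Agent.N220.Kak.Fw_one]
      rw [hcast]
      refine le_trans (ENNReal.ofReal_le_ofReal ?_) h2
      have hq1 : 0 < q - 1 := by linarith
      apply mul_le_mul_of_nonneg_right _ hlog0.le
      apply mul_le_mul_of_nonneg_right (min_le_left _ _)
      positivity

end Pool.Agent.Results.MP_850839_an.ReducibleEndpoint
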