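import Pool.Agent.N249.TF.All

set_option autoImplicit false

/-!
# MP_850839: the conjecture for the families of tubes tangent to a paraboloid

Let `n = k + 3 ≥ 3` and let `Σ ⊂ ℝ^n` be the two-dimensional paraboloid of the points
`P = (q, |q|², 0)`, `q ∈ ℝ²`.  A tube is called tangent if its axis line passes within `δ` of a
point `P ∈ Σ`, `|q| ≤ R`, and its direction `e` is orthogonal to the normal `(2 q, -1, 0, ..., 0)`
of `Σ` (for `n = 3`: `e` is a tangent vector at `P`); for `n > 3` the components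
`e_3, ..., e_{n-1}` are supposed to be at most `R |(e_0, e_1)|`.  The centre of the tube is at
distance at most `R` from `P` in the direction of `e`.

For all families of tangent `δ`-tubes with `δ`-separated orientations the estimate of the
conjecture holds, in all dimensions `n ≥ 3`, for all exponents `n / (n - 1) < q ≤ ∞`, without any
loss.
-/

open MeasureTheory Set ENNReal Metric

namespace Pool.Agent.Results.MP_850839_an.TangentTubes

/-- The closed tube of length `1` and radius `δ` with centre `b` and axis direction `e`. -/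
def tube {n : ℕ} (δ : ℝ) (e b : EuclideanSpace ℝ (Fin n)) : Set (EuclideanSpace ℝ (Fin n)) :=
  {y | |inner ℝ (y - b) e| ≤ 1 / 2 ∧ ‖(y - b) - (inner ℝ (y - b) e : ℝ) • e‖ ≤ δ}

/-- The part `|q| ≤ R` of the two-dimensional paraboloid `{(q, |q|², 0)}` in `ℝ^(k+3)`. -/
def paraboloid (k : ℕ) (R : ℝ) : Set (EuclideanSpace ℝ (Fin (k + 3))) :=
  {P | P 2 = P 0 ^ 2 + P 1 ^ 2 ∧ P 0 ^ 2 + P 1 ^ 2 ≤ R ^ 2 ∧ ∀ i : Fin (k + 3), 2 < i → P i = 0}

/-- The direction `e` is orthogonal to the normal `(2 P_0, 2 P_1, -1, 0, ..., 0)`, and its last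
`k` components are at most `R` times the length of `(e_0, e_1)` (no condition if `k = 0`). -/
def TangentDir {k : ℕ} (R : ℝ) (P e : EuclideanSpace ℝ (Fin (k + 3))) : Prop :=
  e 2 = 2 * (P 0 * e 0 + P 1 * e 1) ∧
    ∀ i : Fin (k + 3), 2 < i → |e i| ≤ R * √(e 0 ^ 2 + e 1 ^ 2)

/-- The `δ`-tube with direction `e` and centre `a` is tangent to the paraboloid: its axis line
passes within `δ` of a point `P` of the paraboloid such that `e` is a tangent direction at `P`,
and the distance from `P` to the centre, measured along the axis, is at most `R`. -/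
def IsTangent {k : ℕ} (R δ : ℝ) (e a : EuclideanSpace ℝ (Fin (k + 3))) : Prop :=
  ∃ P ∈ paraboloid k R, TangentDir R P e ∧ ‖(a - P) - (inner ℝ (a - P) e : ℝ) • e‖ ≤ δ ∧
    |inner ℝ (a - P) e| ≤ R

/-- **The conjecture for the families of tubes tangent to a paraboloid**, in all dimensions
`n = k + 3 ≥ 3`, for all `n / (n - 1) < q ≤ ∞`.  The family consists of the `δ`-tubes with
directions `e i` and centres `a i`, `i ∈ s`. (`q.toReal` is `0` if `q = ∞`, and then both
quotients are `0`.) -/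
theorem result (k : ℕ) (R : ℝ) (hR : 0 ≤ R) (q : ℝ≥0∞)
    (hq : ((k : ℝ≥0∞) + 3) / ((k : ℝ≥0∞) + 2) < q) :
    ∃ C : ℝ, 0 < C ∧ ∀ (δ : ℝ), 0 < δ → δ < 1 → ∀ (ι : Type) (s : Finset ι)
      (e a : ι → EuclideanSpace ℝ (Fin (k + 3))),
      (∀ i ∈ s, ‖e i‖ = 1) → (∀ i ∈ s, IsTangent R δ (e i) (a i)) →
      (∀ i ∈ s, ∀ j ∈ s, i ≠ j → δ ≤ ‖e i - e j‖) →
      eLpNorm (fun x => ∑ i ∈ s, (tube δ (e i) (a i)).indicator (fun _ => (1 : ℝ)) x) q volume ≤
        ENNReal.ofReal (C * δ ^ (((k : ℝ) + 2) / q.toReal) *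
          (s.card : ℝ) ^ (1 - 1 / (q.toReal * ((k : ℝ) + 2)))) := by
  obtain ⟨C, hC, h⟩ := Pool.Agent.N249.TF.fam_all k hR hq
  refine ⟨C, hC, ?_⟩
  intro δ hδ hδ1 ι s e a he hT hsep
  have hP : ∀ i, ∃ P : EuclideanSpace ℝ (Fin (k + 3)), i ∈ s → P ∈ paraboloid k R ∧
      TangentDir R P (e i) ∧ ‖(a i - P) - (inner ℝ (a i - P) (e i) : ℝ) • e i‖ ≤ δ ∧
      |inner ℝ (a i - P) (e i)| ≤ R := by
    intro i
    by_cases hi : i ∈ s
    · obtain ⟨P, h1, h2⟩ := hT i hi
      exact ⟨P, fun _ => ⟨h1, h2⟩⟩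
    · exact ⟨0, fun h => absurd h hi⟩
  choose P hP using hP
  refine h δ hδ hδ1.le s e a P he ?_ ?_ hsep
  · intro i hi
    obtain ⟨h1, h2, h3, _⟩ := hP i hi
    exact ⟨h1.1, h1.2.1, h1.2.2, h2.1, h2.2, h3⟩
  · intro i hi
    exact (hP i hi).2.2.2

end Pool.Agent.Results.MP_850839_an.TangentTubes
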